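import Pool.Agent.Y492.AL.Stm
import Pool.Agent.H973R3.NC.CT

/-!
# AL-LIM: the expected number of clusters of the box
-/

set_option autoImplicit false

namespace Pool.Agent.Y68.AL

open H974 H12S H973N Finset Pool.Agent.Y492.AL

/-! ### Combinatorics -/

lemma src_mem {n : ℕ} {e : Edg} (he : e ∈ EB n) : src e ∈ VB n := by
  obtain ⟨x, y, b⟩ := e
  unfold EB at he
  unfold VB
  rw [Finset.mem_product, Finset.mem_Ico, Finset.mem_Ico]
  cases b
  · rw [mem_RE_false] at he
    simp only [src_mk]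
    omega
  · rw [mem_RE_true] at he
    simp only [src_mk]
    omega

lemma tgt_mem {n : ℕ} {e : Edg} (he : e ∈ EB n) : tgt e ∈ VB n := by
  obtain ⟨x, y, b⟩ := e
  unfold EB at he
  unfold VB
  rw [Finset.mem_product, Finset.mem_Ico, Finset.mem_Ico]
  cases b
  · rw [mem_RE_false] at he
    simp only [tgt_false]
    omega
  · rw [mem_RE_true] at he
    simp only [tgt_true]
    omega

lemma ncl_diff (h1 : S_K1) {n : ℕ} {e : Edg} (he : e ∈ EB n) {F : Finset Edg}
    (hF : F ⊆ (EB n).erase e) :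
    (ncl (VB n) (insert e F) : ℝ) - ncl (VB n) F =
      -(1 - ind (Reach (↑F : Set Edg) (src e) (tgt e))) := by
  have heF : e ∉ F := fun h => (Finset.mem_erase.1 (hF h)).1 rfl
  obtain ⟨ha, hb⟩ := h1 (VB n) F e (src_mem he) (tgt_mem he) heF
  by_cases hr : Reach (↑F : Set Edg) (src e) (tgt e)
  · rw [ind_of hr, hb hr]
    ring
  · rw [ind_not_of hr, ha hr]
    push_cast
    ring

lemma PQ_erase {S : Finset Edg} (q : ℝ) {e : Edg} :
    PQ q S (cn e) = Pr (fun _ => q) (S.erase e) (fun F => Reach (↑F : Set Edg) (src e) (tgt e)) := by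
  have h1 : PQ q S (cn e) = Pr (fun _ => q) (S.erase e) (cn e) := by
    refine Pr_local (Finset.erase_subset e S) fun F hF => ?_
    unfold cn
    have : (F ∩ S.erase e).erase e = F.erase e := by
      ext x
      simp only [Finset.mem_erase, Finset.mem_inter]
      constructor
      · rintro ⟨a, b, _⟩
        exact ⟨a, b⟩
      · rintro ⟨a, b⟩
        exact ⟨a, b, a, hF b⟩
    rw [this]
  rw [h1]
  refine Pr_congr fun F hF => ?_
  unfold cn
  rw [Finset.erase_eq_of_notMem (fun h => (Finset.mem_erase.1 (hF h)).1 rfl)]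

lemma EK_deriv (h1 : S_K1) (n : ℕ) (q : ℝ) :
    HasDerivAt (fun q => EK q n) (-∑ e ∈ EB n, (1 - PQ q (EB n) (cn e))) q := by
  have h := Ex_hasDerivAt (fun q (_ : Edg) => q) (fun _ => 1) q (fun _ => hasDerivAt_id q) (EB n)
    (fun F => (ncl (VB n) F : ℝ))
  have e : ∑ e ∈ EB n, (1 : ℝ) * Ex (fun _ => q) ((EB n).erase e)
      (fun F => (ncl (VB n) (insert e F) : ℝ) - ncl (VB n) F) =
      -∑ e ∈ EB n, (1 - PQ q (EB n) (cn e)) := by
    rw [← Finset.sum_neg_distrib]
    refine Finset.sum_congr rfl fun e he => ?_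
    rw [one_mul, Ex_congr (fun F hF => ncl_diff h1 he hF), PQ_erase]
    have e2 : (fun F : Finset Edg => -(1 - ind (Reach (↑F : Set Edg) (src e) (tgt e)))) =
        fun F : Finset Edg => (-1 : ℝ) * (1 - ind (Reach (↑F : Set Edg) (src e) (tgt e))) := by
      funext F
      ring
    rw [e2, Ex_mul_left, Ex_sub, Ex_const]
    unfold Pr
    ring
  rw [e] at h
  exact h

lemma Ex_zero {E : Type*} [DecidableEq E] (S : Finset E) (f : Finset E → ℝ) :
    Ex (fun _ => (0 : ℝ)) S f = f ∅ := by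
  induction S using Finset.induction_on generalizing f with
  | empty => exact Ex_empty _ _
  | insert a S ha ih => rw [Ex_insert _ ha, ih, ih]; ring

lemma reach_empty {u v : Vtx} (h : Reach (∅ : Set Edg) u v) : v = u := by
  unfold Reach at h
  induction h with
  | refl => rfl
  | tail _ hs _ =>
    obtain ⟨e, he, _⟩ := hs
    exact absurd he (Set.notMem_empty e)

lemma EK_zero (n : ℕ) : EK 0 n = (n : ℝ) ^ 2 := by
  unfold EK
  rw [Ex_zero]
  have h : ncl (VB n) ∅ = n ^ 2 := by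
    unfold ncl
    rw [Set.InjOn.ncard_image]
    · rw [Set.ncard_coe_finset]
      unfold VB
      rw [Finset.card_product, Int.card_Ico]
      simp [sq]
    · intro u _ v _ huv
      have hv : v ∈ {w : Vtx | Reach (↑(∅ : Finset Edg) : Set Edg) u w} := by
        have h0 : v ∈ {w : Vtx | Reach (↑(∅ : Finset Edg) : Set Edg) v w} := Reach.refl _ _
        have h1 : {w : Vtx | Reach (↑(∅ : Finset Edg) : Set Edg) u w} =
          {w : Vtx | Reach (↑(∅ : Finset Edg) : Set Edg) v w} := huv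
        rw [h1]
        exact h0
      have hv' : Reach (∅ : Set Edg) u v := by simpa using hv
      exact (reach_empty hv').symm
  rw [h]
  push_cast
  rfl

/-! ### The sum over the box -/

/-- the bound of the error at depth `k` -/
noncomputable def ph (C : ℝ) (k : ℕ) : ℝ := (if k = 0 then 1 else 0) + C * (k : ℝ) ^ (-(5/4 : ℝ))

lemma ph_nonneg {C : ℝ} (hC : 0 ≤ C) (k : ℕ) : 0 ≤ ph C k := by
  unfold ph
  have : (0 : ℝ) ≤ (k : ℝ) ^ (-(5/4 : ℝ)) := Real.rpow_nonneg (Nat.cast_nonneg k) _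
  split_ifs <;> positivity

lemma summ : Summable fun k : ℕ => (k : ℝ) ^ (-(5/4 : ℝ)) :=
  Real.summable_nat_rpow.2 (by norm_num)

lemma sum_ph {C : ℝ} (hC : 0 ≤ C) (n : ℕ) :
    ∑ k ∈ range n, ph C k ≤ 1 + C * ∑' k : ℕ, (k : ℝ) ^ (-(5/4 : ℝ)) := by
  unfold ph
  rw [Finset.sum_add_distrib, ← Finset.mul_sum]
  gcongr
  · rw [Finset.sum_ite_eq' (range n) 0 (fun _ => (1 : ℝ))]
    split_ifs <;> norm_num
  · exact summ.sum_le_tsum _ (fun k _ => Real.rpow_nonneg (Nat.cast_nonneg k) _)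

lemma sum_int (n : ℕ) (f : ℤ → ℝ) : ∑ x ∈ Finset.Icc (0 : ℤ) (n - 1), f x = ∑ k ∈ range n, f k := by
  symm
  refine Finset.sum_nbij' (fun k : ℕ => (k : ℤ)) (fun x : ℤ => x.toNat) ?_ ?_ ?_ ?_ ?_
  · intro k hk
    rw [Finset.mem_range] at hk
    rw [Finset.mem_Icc]
    omega
  · intro x hx
    rw [Finset.mem_Icc] at hx
    rw [Finset.mem_range]
    omega
  · intro k _
    simp
  · intro x hx
    rw [Finset.mem_Icc] at hx
    omega
  · intro k _
    rfl

/-- all the edges with base point in the box -/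
noncomputable def TB (n : ℕ) : Finset Edg :=
  Finset.Icc (0 : ℤ) (n - 1) ×ˢ (Finset.Icc (0 : ℤ) (n - 1) ×ˢ (Finset.univ : Finset Bool))

lemma EB_sub (n : ℕ) : EB n ⊆ TB n := Finset.filter_subset _ _

lemma sum_TB (n : ℕ) (f : ℤ → ℤ → Bool → ℝ) : ∑ e ∈ TB n, f e.1 e.2.1 e.2.2 =
    ∑ k ∈ range n, ∑ l ∈ range n, (f k l true + f k l false) := by
  unfold TB
  rw [Finset.sum_product, sum_int n (fun x => ∑ y ∈ Finset.Icc (0 : ℤ) (n - 1) ×ˢ
    (Finset.univ : Finset Bool), f x y.1 y.2)]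
  refine Finset.sum_congr rfl fun k _ => ?_
  rw [Finset.sum_product, sum_int n (fun y => ∑ b : Bool, f k y b)]
  refine Finset.sum_congr rfl fun l _ => ?_
  rw [Fintype.sum_bool]

/-- the four terms -/
noncomputable def psi (C : ℝ) (n : ℕ) (x y : ℤ) : ℝ :=
  ph C x.toNat + ph C ((n : ℤ) - 1 - x).toNat + ph C y.toNat + ph C ((n : ℤ) - 1 - y).toNat

lemma psi_ge {C : ℝ} (hC : 0 ≤ C) {n : ℕ} {x y : ℤ} {d : ℕ}
    (h : d = x.toNat ∨ d = ((n : ℤ) - 1 - x).toNat ∨ d = y.toNat ∨ d = ((n : ℤ) - 1 - y).toNat) :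
    ph C d ≤ psi C n x y := by
  unfold psi
  have h1 := ph_nonneg hC x.toNat
  have h2 := ph_nonneg hC ((n : ℤ) - 1 - x).toNat
  have h3 := ph_nonneg hC y.toNat
  have h4 := ph_nonneg hC ((n : ℤ) - 1 - y).toNat
  rcases h with h | h | h | h <;> rw [h] <;> linarith

lemma sum_refl (C : ℝ) (n : ℕ) :
    ∑ k ∈ range n, ph C ((n : ℤ) - 1 - (k : ℤ)).toNat = ∑ k ∈ range n, ph C k := by
  rw [← Finset.sum_range_reflect]
  refine Finset.sum_congr rfl fun k hk => ?_
  rw [Finset.mem_range] at hk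
  congr 1
  omega

lemma sum_psi (C : ℝ) (n : ℕ) : ∑ e ∈ TB n, psi C n e.1 e.2.1 = 8 * n * ∑ k ∈ range n, ph C k := by
  rw [sum_TB n (fun x y _ => psi C n x y)]
  unfold psi
  simp only [Int.toNat_natCast]
  set T := ∑ k ∈ range n, ph C k with hT
  have h1 : ∀ k ∈ range n, ∑ l ∈ range n,
      (ph C k + ph C ((n : ℤ) - 1 - k).toNat + ph C l + ph C ((n : ℤ) - 1 - l).toNat +
        (ph C k + ph C ((n : ℤ) - 1 - k).toNat + ph C l + ph C ((n : ℤ) - 1 - l).toNat)) =
      2 * (n * ph C k + n * ph C ((n : ℤ) - 1 - k).toNat + 2 * T) := by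
    intro k _
    simp only [Finset.sum_add_distrib, Finset.sum_const, Finset.card_range, nsmul_eq_mul]
    rw [sum_refl]
    ring
  rw [Finset.sum_congr rfl h1, ← Finset.mul_sum]
  simp only [Finset.sum_add_distrib, Finset.sum_const, Finset.card_range, nsmul_eq_mul,
    ← Finset.mul_sum]
  rw [sum_refl]
  ring

/-- the depth of an edge -/
lemma depth {n : ℕ} {e : Edg} (he : e ∈ EB n) : ∃ d : ℕ,
    (d = e.1.toNat ∨ d = ((n : ℤ) - 1 - e.1).toNat ∨ d = e.2.1.toNat ∨
      d = ((n : ℤ) - 1 - e.2.1).toNat) ∧ blk (bp e) d ⊆ EB n := by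
  obtain ⟨x, y, b⟩ := e
  have hxy : 0 ≤ x ∧ x ≤ n - 1 ∧ 0 ≤ y ∧ y ≤ n - 1 := by
    unfold EB at he
    cases b
    · rw [mem_RE_false] at he
      omega
    · rw [mem_RE_true] at he
      omega
  refine ⟨min (min x.toNat ((n : ℤ) - 1 - x).toNat) (min y.toNat ((n : ℤ) - 1 - y).toNat), ?_, ?_⟩
  · simp only
    omega
  · intro f hf
    obtain ⟨u, v, c⟩ := f
    unfold blk bp at hf
    unfold EB
    cases c
    · rw [mem_RE_false] at hf ⊢
      simp only at hf
      omega
    · rw [mem_RE_true] at hf ⊢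
      simp only at hf
      omega

theorem t_LIM : S_LIM := by
  intro h1 ⟨C, hC, hA⟩ hG
  obtain ⟨hcont, h01, hGL⟩ := hG C hC hA
  set K : ℝ := 1 + C * ∑' k : ℕ, (k : ℝ) ^ (-(5/4 : ℝ)) with hK
  have hK1 : 1 ≤ K := by
    have : 0 ≤ ∑' k : ℕ, (k : ℝ) ^ (-(5/4 : ℝ)) :=
      tsum_nonneg fun k => Real.rpow_nonneg (Nat.cast_nonneg k) _
    have : 0 ≤ C * ∑' k : ℕ, (k : ℝ) ^ (-(5/4 : ℝ)) := by positivity
    linarith
  -- the pointwise bound
  have key : ∀ q : ℝ, 0 ≤ q → q ≤ 1 → ∀ n : ℕ, 1 ≤ n →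
      |(n : ℝ) ^ 2 * (2 - (gl true q + gl false q)) - ∑ e ∈ EB n, (1 - PQ q (EB n) (cn e))| ≤
        8 * n * K := by
    intro q h0 hq1 n hn
    have e1 : (n : ℝ) ^ 2 * (2 - (gl true q + gl false q)) = ∑ e ∈ TB n, (1 - gl e.2.2 q) := by
      rw [sum_TB n (fun _ _ b => 1 - gl b q)]
      simp only [Finset.sum_const, Finset.card_range, nsmul_eq_mul]
      ring
    have e2 : ∑ e ∈ EB n, (1 - PQ q (EB n) (cn e)) =
        ∑ e ∈ TB n, if e ∈ EB n then (1 - PQ q (EB n) (cn e)) else 0 := by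
      rw [← Finset.sum_filter]
      congr 1
      ext e
      rw [Finset.mem_filter]
      exact ⟨fun h => ⟨EB_sub n h, h⟩, fun h => h.2⟩
    rw [e1, e2, ← Finset.sum_sub_distrib]
    refine (Finset.abs_sum_le_sum_abs _ _).trans ?_
    have h3 : ∀ e ∈ TB n, |(1 - gl e.2.2 q) - (if e ∈ EB n then (1 - PQ q (EB n) (cn e)) else 0)| ≤
        psi C n e.1 e.2.1 := by
      intro e he
      have hg := h01 e.2.2 q h0 hq1
      by_cases hE : e ∈ EB n
      · rw [if_pos hE]
        obtain ⟨d, hd, hsub⟩ := depth hE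
        refine le_trans ?_ (psi_ge hC.le hd)
        have e3 : (1 - gl e.2.2 q) - (1 - PQ q (EB n) (cn e)) =
            PQ q (EB n) (cn e) - gl e.2.2 q := by ring
        rw [e3]
        unfold ph
        by_cases h0d : d = 0
        · rw [if_pos h0d]
          have hp0 := Pr_nonneg (okq h0 hq1) (EB n) (cn e)
          have hp1 := Pr_le_one (okq h0 hq1) (EB n) (cn e)
          have h5 : 0 ≤ C * (d : ℝ) ^ (-(5/4 : ℝ)) :=
            mul_nonneg hC.le (Real.rpow_nonneg (Nat.cast_nonneg d) _)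
          rw [abs_le]
          constructor
          · linarith [hg.2]
          · linarith [hg.1]
        · rw [if_neg h0d, zero_add]
          exact hGL q h0 hq1 e d (EB n) (by omega) hsub
      · rw [if_neg hE, sub_zero]
        have h4 : ph C 0 ≤ psi C n e.1 e.2.1 := by
          apply psi_ge hC.le
          obtain ⟨x, y, b⟩ := e
          unfold TB at he
          rw [Finset.mem_product, Finset.mem_product, Finset.mem_Icc, Finset.mem_Icc] at he
          simp only at he ⊢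
          unfold EB at hE
          cases b
          · rw [mem_RE_false] at hE
            omega
          · rw [mem_RE_true] at hE
            omega
        refine le_trans ?_ h4
        unfold ph
        rw [if_pos rfl]
        have h5 : 0 ≤ C * ((0 : ℕ) : ℝ) ^ (-(5/4 : ℝ)) :=
          mul_nonneg hC.le (Real.rpow_nonneg (Nat.cast_nonneg 0) _)
        rw [abs_le]
        constructor <;> linarith [hg.1, hg.2]
    refine (Finset.sum_le_sum h3).trans ?_
    rw [sum_psi]
    have h6 := sum_ph hC.le n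
    gcongr
  refine ⟨8 * K, by positivity, fun p hp0 hp1 n hn => ?_⟩
  have hn0 : (0 : ℝ) < n := by exact_mod_cast hn
  -- the integrals
  have hcE : Continuous fun q : ℝ => ∑ e ∈ EB n, (1 - PQ q (EB n) (cn e)) := by
    refine continuous_finsetSum _ fun e _ => ?_
    exact continuous_const.sub (cont_Pr (EB n) (cn e))
  have hFTC : ∫ s in (0:ℝ)..p, -∑ e ∈ EB n, (1 - PQ s (EB n) (cn e)) = EK p n - EK 0 n :=
    intervalIntegral.integral_eq_sub_of_hasDerivAt (fun s _ => EK_deriv h1 n s)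
      (hcE.neg.intervalIntegrable _ _)
  rw [intervalIntegral.integral_neg, EK_zero] at hFTC
  have hsub : Set.uIcc 0 p ⊆ Set.Icc (0 : ℝ) 1 := by
    rw [Set.uIcc_of_le hp0]
    exact Set.Icc_subset_Icc le_rfl hp1
  have hint : IntervalIntegrable (fun s => 2 - (gl true s + gl false s)) MeasureTheory.volume 0 p := by
    apply ContinuousOn.intervalIntegrable
    exact continuousOn_const.sub (((hcont true).mono hsub).add ((hcont false).mono hsub))
  have hintE : IntervalIntegrable (fun s => ∑ e ∈ EB n, (1 - PQ s (EB n) (cn e)))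
      MeasureTheory.volume 0 p := hcE.intervalIntegrable _ _
  have hval : EK p n / (n : ℝ) ^ 2 - Pool.Agent.Y492.AL.kap p = ∫ s in (0:ℝ)..p,
      ((2 - (gl true s + gl false s)) -
        ((n : ℝ) ^ 2)⁻¹ * ∑ e ∈ EB n, (1 - PQ s (EB n) (cn e))) := by
    rw [intervalIntegral.integral_sub hint (hintE.const_mul _), intervalIntegral.integral_const_mul]
    unfold Pool.Agent.Y492.AL.kap
    have h7 : EK p n = (n : ℝ) ^ 2 - ∫ s in (0:ℝ)..p, ∑ e ∈ EB n, (1 - PQ s (EB n) (cn e)) := by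
      linarith
    rw [h7]
    field_simp
    ring
  rw [hval]
  have hb : ∀ s ∈ Set.uIoc 0 p, ‖(2 - (gl true s + gl false s)) -
        ((n : ℝ) ^ 2)⁻¹ * ∑ e ∈ EB n, (1 - PQ s (EB n) (cn e))‖ ≤ 8 * K / n := by
    intro s hs
    rw [Set.uIoc_of_le hp0] at hs
    have h8 := key s hs.1.le (hs.2.trans hp1) n hn
    have h9 : (2 - (gl true s + gl false s)) -
        ((n : ℝ) ^ 2)⁻¹ * ∑ e ∈ EB n, (1 - PQ s (EB n) (cn e)) =
        ((n : ℝ) ^ 2 * (2 - (gl true s + gl false s)) -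
          ∑ e ∈ EB n, (1 - PQ s (EB n) (cn e))) / (n : ℝ) ^ 2 := by
      field_simp
    rw [h9, Real.norm_eq_abs, abs_div, abs_of_pos (by positivity : (0 : ℝ) < (n : ℝ) ^ 2),
      div_le_div_iff₀ (by positivity) hn0]
    calc _ ≤ 8 * n * K * n := by gcongr
      _ = 8 * K * (n : ℝ) ^ 2 := by ring
  have h10 := intervalIntegral.norm_integral_le_of_norm_le_const hb
  rw [Real.norm_eq_abs] at h10
  refine h10.trans ?_
  rw [sub_zero, abs_of_nonneg hp0]
  have : 0 ≤ 8 * K / n := by positivity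
  nlinarith

end Pool.Agent.Y68.AL
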